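import Pool.Agent.CMG.Stmts

/-!
# KLE: completely metrizable precompact groups are compact
-/

set_option autoImplicit false

open Set Topology Filter
open scoped Pointwise

namespace Pool.Agent.CMG.H7

open Pool.Agent.LSG Pool.Agent.CMG

/-- some translate is in the ultrafilter (for the map `θ`) -/
theorem trl {H : Type} [Group H] [TopologicalSpace H]
    (hpre : ∀ U ∈ nhds (1 : H), ∃ F : Finset H, (⋃ g ∈ F, g • U) = Set.univ)
    (f : Ultrafilter H) (θ : H → H) (V : Set H) (hV : V ∈ 𝓝 (1 : H)) :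
    ∃ g : H, {x | θ x ∈ g • V} ∈ f := by
  obtain ⟨F, hF⟩ := hpre V hV
  have h1 : (⋃ g ∈ (F : Set H), {x | θ x ∈ g • V}) ∈ f := by
    have : (⋃ g ∈ (F : Set H), {x | θ x ∈ g • V}) = Set.univ := by
      ext x
      simp only [Set.mem_iUnion, Set.mem_univ, iff_true]
      have hx : θ x ∈ (⋃ g ∈ F, g • V) := by
        rw [hF]
        exact Set.mem_univ _
      simp only [Set.mem_iUnion] at hx
      obtain ⟨g, hg, hgx⟩ := hx
      exact ⟨g, hg, hgx⟩
    rw [this]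
    exact Filter.univ_mem
  rw [Ultrafilter.finite_biUnion_mem_iff F.finite_toSet] at h1
  obtain ⟨g, _, hg⟩ := h1
  exact ⟨g, hg⟩

theorem kle : KleStmt := by
  intro H _ _ _ _ hpre
  let _ := TopologicalSpace.upgradeIsCompletelyMetrizable H
  -- splitting
  have hsplit : ∀ U ∈ 𝓝 (1 : H), ∃ V ∈ 𝓝 (1 : H), ∀ v ∈ V, ∀ w ∈ V, v⁻¹ * w ∈ U := by
    intro U hU
    have hc : Continuous fun q : H × H => q.1⁻¹ * q.2 := by fun_prop
    have h1 : ∀ᶠ q : H × H in 𝓝 ((1 : H), (1 : H)), q.1⁻¹ * q.2 ∈ U := by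
      apply (hc.tendsto ((1 : H), (1 : H))).eventually
      have : ((1 : H), (1 : H)).1⁻¹ * ((1 : H), (1 : H)).2 = 1 := by simp
      rw [this]
      exact hU
    rw [nhds_prod_eq, Filter.eventually_prod_iff] at h1
    obtain ⟨P, hP, Q, hQ, hPQ⟩ := h1
    refine ⟨{x | P x} ∩ {x | Q x}, Filter.inter_mem hP hQ, fun v hv w hw => ?_⟩
    exact hPQ hv.1 hw.2
  refine ⟨isCompact_iff_ultrafilter_le_nhds.mpr fun f _ => ?_⟩
  -- small sets
  have hleft : ∀ U ∈ 𝓝 (1 : H), ∃ A ∈ f, ∀ a ∈ A, ∀ b ∈ A, a⁻¹ * b ∈ U := by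
    intro U hU
    obtain ⟨V, hV, hVU⟩ := hsplit U hU
    obtain ⟨g, hg⟩ := trl hpre f id V hV
    refine ⟨_, hg, ?_⟩
    rintro a ⟨v, hv, hva⟩ b ⟨w, hw, hwb⟩
    have e1 : a = g * v := hva.symm
    have e2 : b = g * w := hwb.symm
    have : a⁻¹ * b = v⁻¹ * w := by
      rw [e1, e2]
      group
    rw [this]
    exact hVU v hv w hw
  have hright : ∀ U ∈ 𝓝 (1 : H), ∃ A ∈ f, ∀ a ∈ A, ∀ b ∈ A, a * b⁻¹ ∈ U := by
    intro U hU
    obtain ⟨V, hV, hVU⟩ := hsplit U hU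
    obtain ⟨g, hg⟩ := trl hpre f (fun x => x⁻¹) V hV
    refine ⟨_, hg, ?_⟩
    rintro a ⟨v, hv, hva⟩ b ⟨w, hw, hwb⟩
    have e1 : a⁻¹ = g * v := hva.symm
    have e2 : b⁻¹ = g * w := hwb.symm
    have : a * b⁻¹ = v⁻¹ * w := by
      rw [e2, ← inv_inv a, e1]
      group
    rw [this]
    exact hVU v hv w hw
  let O : ℕ → Set H := fun k => {y | ∃ V ∈ 𝓝 y, ∃ A ∈ f, ∀ a ∈ A, ∀ b ∈ A, ∀ v ∈ V, ∀ w ∈ V,
    dist (a * v) (b * w) < 1 / ((k : ℝ) + 1)}
  have hOo : ∀ k, IsOpen (O k) := by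
    intro k
    rw [isOpen_iff_mem_nhds]
    rintro y ⟨V, hV, A, hA, h⟩
    filter_upwards [eventually_mem_nhds_iff.mpr hV] with y' hy'
    exact ⟨V, hy', A, hA, h⟩
  have hOd : ∀ k, Dense (O k) := by
    intro k
    rw [dense_iff_inter_open]
    rintro W hW ⟨y₀, hy₀⟩
    have hε : (0 : ℝ) < 1 / ((k : ℝ) + 1) := by positivity
    have hU : {u : H | u * y₀ ∈ W} ∈ 𝓝 (1 : H) := by
      have hc : Continuous fun u : H => u * y₀ := continuous_mul_const y₀
      apply (hc.tendsto 1)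
      rw [one_mul]
      exact hW.mem_nhds hy₀
    obtain ⟨A₀, hA₀, hA₀'⟩ := hleft _ hU
    obtain ⟨a₀, ha₀⟩ := f.nonempty_of_mem hA₀
    set p : H := a₀ * y₀ with hp
    -- a neighbourhood of p which is small
    have hc2 : Continuous fun q : H × H => q.1 * q.2 := continuous_mul
    have hball : Metric.ball p (1 / ((k : ℝ) + 1) / 2) ∈ 𝓝 ((1 : H) * p) := by
      rw [one_mul]
      exact Metric.ball_mem_nhds p (by positivity)
    have h1 : ∀ᶠ q : H × H in 𝓝 ((1 : H), p), q.1 * q.2 ∈ Metric.ball p (1 / ((k : ℝ) + 1) / 2) :=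
      (hc2.tendsto ((1 : H), p)).eventually hball
    rw [nhds_prod_eq, Filter.eventually_prod_iff] at h1
    obtain ⟨P, hP, Q, hQ, hPQ⟩ := h1
    obtain ⟨A₁, hA₁, hA₁'⟩ := hright _ hP
    obtain ⟨a₁, ha₁⟩ := f.nonempty_of_mem (Filter.inter_mem hA₀ hA₁)
    refine ⟨a₁⁻¹ * p, ?_, {v | Q (a₁ * v)}, ?_, A₁, hA₁, ?_⟩
    · have := hA₀' a₁ ha₁.1 a₀ ha₀
      rw [hp, ← mul_assoc]
      exact this
    · have hc : Continuous fun v : H => a₁ * v := continuous_const_mul a₁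
      apply (hc.tendsto (a₁⁻¹ * p))
      rw [mul_inv_cancel_left]
      exact hQ
    · intro a ha b hb v hv w hw
      have e1 : a * v = (a * a₁⁻¹) * (a₁ * v) := by group
      have e2 : b * w = (b * a₁⁻¹) * (a₁ * w) := by group
      have d1 := hPQ (hA₁' a ha a₁ ha₁.2) hv
      have d2 := hPQ (hA₁' b hb a₁ ha₁.2) hw
      rw [e1, e2]
      have := dist_triangle_right ((a * a₁⁻¹) * (a₁ * v)) ((b * a₁⁻¹) * (a₁ * w)) p
      rw [Metric.mem_ball] at d1 d2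
      linarith
  have hdense : Dense (⋂ k, O k) := dense_iInter_of_isOpen_nat hOo hOd
  obtain ⟨y, hy⟩ := hdense.nonempty
  -- the translated filter is Cauchy
  have hcau : Cauchy (Filter.map (fun a => a * y) (f : Filter H)) := by
    rw [Metric.cauchy_iff]
    refine ⟨inferInstance, fun ε hε => ?_⟩
    obtain ⟨k, hk⟩ := exists_nat_one_div_lt hε
    obtain ⟨V, hV, A, hA, h⟩ := Set.mem_iInter.mp hy k
    refine ⟨(fun a => a * y) '' A, Filter.image_mem_map hA, ?_⟩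
    rintro _ ⟨a, ha, rfl⟩ _ ⟨b, hb, rfl⟩
    exact (h a ha b hb y (mem_of_mem_nhds hV) y (mem_of_mem_nhds hV)).trans hk
  obtain ⟨z, hz⟩ := CompleteSpace.complete hcau
  refine ⟨z * y⁻¹, Set.mem_univ _, ?_⟩
  have hc : Continuous fun x : H => x * y⁻¹ := continuous_mul_const y⁻¹
  have h2 : Filter.Tendsto (fun a => a * y) (f : Filter H) (𝓝 z) := hz
  have h3 := (hc.tendsto z).comp h2
  have h4 : ((fun x : H => x * y⁻¹) ∘ fun a => a * y) = id := by
    funext a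
    simp
  rw [h4] at h3
  exact h3

end Pool.Agent.CMG.H7
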